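import Pool.Agent.helper26.T5.SpecA

/-!
# T5 (MP_16912e_nt), row LA2: Gauss, lower bound for the number of lattice points
-/

set_option autoImplicit false

namespace Pool.Agent.helper26.T5

open MeasureTheory

/-- the linear map `x + i y ↦ x e₁ + y e₂` -/
noncomputable def LA2_A (e₁ e₂ : ℂ) : ℂ →ₗ[ℝ] ℂ where
  toFun z := (z.re : ℂ) * e₁ + (z.im : ℂ) * e₂
  map_add' x y := by
    simp only [Complex.add_re, Complex.add_im, Complex.ofReal_add]
    ring
  map_smul' r x := by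
    simp only [Complex.real_smul, Complex.re_ofReal_mul, Complex.im_ofReal_mul,
      Complex.ofReal_mul, RingHom.id_apply]
    ring

theorem LA2_apply (e₁ e₂ z : ℂ) : LA2_A e₁ e₂ z = (z.re : ℂ) * e₁ + (z.im : ℂ) * e₂ := rfl

theorem LA2_det (e₁ e₂ : ℂ) :
    LinearMap.det (LA2_A e₁ e₂) = ((starRingEnd ℂ) e₁ * e₂).im := by
  rw [← LinearMap.det_toMatrix Complex.basisOneI, Matrix.det_fin_two]
  simp only [LinearMap.toMatrix_apply, Complex.coe_basisOneI, Complex.coe_basisOneI_repr,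
    LA2_apply, Matrix.cons_val_zero, Matrix.cons_val_one, Complex.one_re, Complex.one_im,
    Complex.I_re, Complex.I_im, Complex.ofReal_one, Complex.ofReal_zero, one_mul, zero_mul,
    add_zero, zero_add, Complex.mul_im, Complex.conj_re, Complex.conj_im]
  ring

theorem LA2_sq : volume ((Set.Ico (0 : ℝ) 1) ×ℂ (Set.Ico (0 : ℝ) 1)) = 1 := by
  have h : (Set.Ico (0 : ℝ) 1) ×ℂ (Set.Ico (0 : ℝ) 1)
      = Complex.measurableEquivRealProd ⁻¹' ((Set.Ico (0 : ℝ) 1) ×ˢ (Set.Ico (0 : ℝ) 1)) := by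
    ext z
    simp [Complex.mem_reProdIm]
  rw [h, Complex.volume_preserving_equiv_real_prod.measure_preimage_equiv,
    Measure.volume_eq_prod, Measure.prod_prod]
  simp

theorem LA2_vol (e₁ e₂ : ℂ) :
    volume (LA2_A e₁ e₂ '' ((Set.Ico (0 : ℝ) 1) ×ℂ (Set.Ico (0 : ℝ) 1)))
      = ENNReal.ofReal (cov e₁ e₂) := by
  rw [MeasureTheory.Measure.addHaar_image_linearMap, LA2_sq, LA2_det, mul_one]
  rfl

theorem la2 : LA2 := by
  intro v e₁ e₂ d S T hcov hd hfin hT
  set D : ℝ := ((starRingEnd ℂ) e₁ * e₂).im with hD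
  have hD0 : D ≠ 0 := by
    intro h0
    unfold cov at hcov
    rw [← hD, h0, abs_zero] at hcov
    exact lt_irrefl _ hcov
  have hDe : D = e₁.re * e₂.im - e₁.im * e₂.re := by
    rw [hD, Complex.mul_im, Complex.conj_re, Complex.conj_im]
    ring
  set F : Set ℂ := LA2_A e₁ e₂ '' ((Set.Ico (0 : ℝ) 1) ×ℂ (Set.Ico (0 : ℝ) 1)) with hF
  have hvol : volume F = ENNReal.ofReal (cov e₁ e₂) := LA2_vol e₁ e₂
  have hsub : T ⊆ ⋃ p ∈ hfin.toFinset, (fun z => -(lp v e₁ e₂ p) + z) ⁻¹' F := by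
    intro z hz
    set w : ℂ := z - v with hw
    set x : ℝ := (w.re * e₂.im - w.im * e₂.re) / D with hx
    set y : ℝ := (e₁.re * w.im - e₁.im * w.re) / D with hy
    have hxy : (x : ℂ) * e₁ + (y : ℂ) * e₂ = w := by
      apply Complex.ext
      · simp only [Complex.add_re, Complex.mul_re, Complex.ofReal_re, Complex.ofReal_im,
          zero_mul, sub_zero]
        rw [hx, hy]
        field_simp
        rw [hDe]
        ring
      · simp only [Complex.add_im, Complex.mul_im, Complex.ofReal_re, Complex.ofReal_im,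
          zero_mul, add_zero]
        rw [hx, hy]
        field_simp
        rw [hDe]
        ring
    have hfx0 : 0 ≤ Int.fract x := Int.fract_nonneg x
    have hfx1 : Int.fract x < 1 := Int.fract_lt_one x
    have hfy0 : 0 ≤ Int.fract y := Int.fract_nonneg y
    have hfy1 : Int.fract y < 1 := Int.fract_lt_one y
    have hxs : (x : ℂ) = ((⌊x⌋ : ℤ) : ℂ) + ((Int.fract x : ℝ) : ℂ) := by
      rw [← Complex.ofReal_intCast, ← Complex.ofReal_add, Int.floor_add_fract]
    have hys : (y : ℂ) = ((⌊y⌋ : ℤ) : ℂ) + ((Int.fract y : ℝ) : ℂ) := by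
      rw [← Complex.ofReal_intCast, ← Complex.ofReal_add, Int.floor_add_fract]
    have hzl : z = lp v e₁ e₂ (⌊x⌋, ⌊y⌋)
        + (((Int.fract x : ℝ) : ℂ) * e₁ + ((Int.fract y : ℝ) : ℂ) * e₂) := by
      have h1 : z = v + w := by rw [hw]; ring
      rw [h1, ← hxy, hxs, hys]
      unfold lp
      simp only
      ring
    have hnorm : ‖-(((Int.fract x : ℝ) : ℂ) * e₁ + ((Int.fract y : ℝ) : ℂ) * e₂)‖ ≤ d := by
      rw [norm_neg]
      refine le_trans (norm_add_le _ _) (le_trans ?_ hd)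
      rw [norm_mul, norm_mul, Complex.norm_real, Complex.norm_real, Real.norm_eq_abs,
        Real.norm_eq_abs, abs_of_nonneg hfx0, abs_of_nonneg hfy0]
      have h1 : Int.fract x * ‖e₁‖ ≤ 1 * ‖e₁‖ :=
        mul_le_mul_of_nonneg_right hfx1.le (norm_nonneg _)
      have h2 : Int.fract y * ‖e₂‖ ≤ 1 * ‖e₂‖ :=
        mul_le_mul_of_nonneg_right hfy1.le (norm_nonneg _)
      linarith
    have hmem : lp v e₁ e₂ (⌊x⌋, ⌊y⌋) ∈ S := by
      have h1 := hT z hz _ hnorm
      have h2 : z + -(((Int.fract x : ℝ) : ℂ) * e₁ + ((Int.fract y : ℝ) : ℂ) * e₂)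
          = lp v e₁ e₂ (⌊x⌋, ⌊y⌋) := by
        nth_rewrite 1 [hzl]
        ring
      rw [h2] at h1
      exact h1
    rw [Set.mem_iUnion₂]
    refine ⟨(⌊x⌋, ⌊y⌋), ?_, ?_⟩
    · rw [Set.Finite.mem_toFinset]
      exact hmem
    · show -(lp v e₁ e₂ (⌊x⌋, ⌊y⌋)) + z ∈ F
      rw [hF]
      refine ⟨⟨Int.fract x, Int.fract y⟩, ?_, ?_⟩
      · rw [Complex.mem_reProdIm]
        exact ⟨⟨hfx0, hfx1⟩, ⟨hfy0, hfy1⟩⟩
      · rw [LA2_apply]
        simp only
        rw [eq_neg_add_iff_add_eq]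
        exact hzl.symm
  have hle : volume T ≤ (hfin.toFinset.card : ENNReal) * ENNReal.ofReal (cov e₁ e₂) := by
    refine le_trans (measure_mono hsub) (le_trans (measure_biUnion_finset_le _ _) ?_)
    have h1 : ∀ p ∈ hfin.toFinset,
        volume ((fun z => -(lp v e₁ e₂ p) + z) ⁻¹' F) = ENNReal.ofReal (cov e₁ e₂) := by
      intro p _
      rw [measure_preimage_add, hvol]
    rw [Finset.sum_congr rfl h1, Finset.sum_const, nsmul_eq_mul]
  have hne : (hfin.toFinset.card : ENNReal) * ENNReal.ofReal (cov e₁ e₂) ≠ ⊤ :=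
    ENNReal.mul_ne_top (ENNReal.natCast_ne_top _) ENNReal.ofReal_ne_top
  have h2 := ENNReal.toReal_mono hne hle
  rw [ENNReal.toReal_mul, ENNReal.toReal_natCast, ENNReal.toReal_ofReal hcov.le] at h2
  rw [Set.ncard_eq_toFinset_card _ hfin, mul_comm]
  exact h2

end Pool.Agent.helper26.T5
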