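import Pool.Agent.helper94.T5.SpecT

/-!
# T5 (MP_16912e_nt), block TAS, row TA4: cells in terms of the scaled point
-/

set_option autoImplicit false

namespace Pool.Agent.T5T

open Finset Pool.Agent.T5

theorem TA4 : TA4_stmt := by
  intro N Y Y₂ hN hY hY₂ b e n k m g R t
  have hn : 0 < sN N Y Y₂ := by unfold sN; positivity
  have hk : 0 < sK N Y Y₂ := by unfold sK; positivity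
  have hm : 0 < sM N Y Y₂ := by unfold sM; positivity
  have hg : 0 < sG N Y Y₂ := by unfold sG; positivity
  have hset : sp N Y Y₂ t ∈ b.set ↔
      (b.lo 0 * Y < (t.2.2.2 : ℝ) ∧ (t.2.2.2 : ℝ) ≤ b.hi 0 * Y) ∧
      (b.lo 1 * sN N Y Y₂ < (t.1.1 : ℝ) ∧ (t.1.1 : ℝ) ≤ b.hi 1 * sN N Y Y₂) ∧
      (b.lo 2 * sK N Y Y₂ < (t.1.2 : ℝ) ∧ (t.1.2 : ℝ) ≤ b.hi 2 * sK N Y Y₂) ∧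
      (b.lo 3 * sM N Y Y₂ < (t.2.1 : ℝ) ∧ (t.2.1 : ℝ) ≤ b.hi 3 * sM N Y Y₂) ∧
      (b.lo 4 * sG N Y Y₂ < (t.2.2.1 : ℝ) ∧ (t.2.2.1 : ℝ) ≤ b.hi 4 * sG N Y Y₂) := by
    show ((b.lo 0 < (t.2.2.2 : ℝ) / Y ∧ (t.2.2.2 : ℝ) / Y ≤ b.hi 0) ∧
      (b.lo 1 < (t.1.1 : ℝ) / sN N Y Y₂ ∧ (t.1.1 : ℝ) / sN N Y Y₂ ≤ b.hi 1) ∧
      (b.lo 2 < (t.1.2 : ℝ) / sK N Y Y₂ ∧ (t.1.2 : ℝ) / sK N Y Y₂ ≤ b.hi 2) ∧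
      (b.lo 3 < (t.2.1 : ℝ) / sM N Y Y₂ ∧ (t.2.1 : ℝ) / sM N Y Y₂ ≤ b.hi 3) ∧
      (b.lo 4 < (t.2.2.1 : ℝ) / sG N Y Y₂ ∧ (t.2.2.1 : ℝ) / sG N Y Y₂ ≤ b.hi 4)) ↔ _
    rw [lt_div_iff₀ hY, div_le_iff₀ hY, lt_div_iff₀ hn, div_le_iff₀ hn, lt_div_iff₀ hk,
      div_le_iff₀ hk, lt_div_iff₀ hm, div_le_iff₀ hm, lt_div_iff₀ hg, div_le_iff₀ hg]
  rw [hset]
  constructor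
  · intro h
    exact ⟨h.tt, ⟨⟨h.z1, h.z2⟩, ⟨h.n1, h.n2⟩, ⟨h.k1, h.k2⟩, ⟨h.m1, h.m2⟩, ⟨h.g1, h.g2⟩⟩,
      h.cn, h.ck, h.cm, h.cg, h.cR⟩
  · rintro ⟨h0, ⟨⟨z1, z2⟩, ⟨n1, n2⟩, ⟨k1, k2⟩, ⟨m1, m2⟩, ⟨g1, g2⟩⟩, cn, ck, cm, cg, cR⟩
    exact ⟨h0, n1, n2, k1, k2, m1, m2, g1, g2, z1, z2, cn, ck, cm, cg, cR⟩

end Pool.Agent.T5T
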