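import Pool.Agent.helper94.T5.SpecV

/-!
# T5 (MP_16912e_nt), block V, row VGM: the geometry of the change of variables
-/

set_option autoImplicit false

namespace Pool.Agent.T5V

open MeasureTheory Set
open scoped ENNReal

theorem VGM_sin_sub_ne {φ ψ : ℝ} (hφ : φ ∈ Ioo 0 Real.pi) (hψ : ψ ∈ Ioo 0 Real.pi)
    (hne : φ ≠ ψ) : Real.sin (φ - ψ) ≠ 0 := by
  rcases lt_or_gt_of_ne hne with h | h
  · have h1 : Real.sin (ψ - φ) > 0 :=
      Real.sin_pos_of_pos_of_lt_pi (by linarith) (by linarith [hφ.1, hψ.2])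
    have h2 : Real.sin (φ - ψ) = -Real.sin (ψ - φ) := by
      rw [← Real.sin_neg]
      congr 1
      ring
    rw [h2]
    exact (neg_neg_of_pos h1).ne
  · exact (Real.sin_pos_of_pos_of_lt_pi (by linarith) (by linarith [hφ.2, hψ.1])).ne'

theorem VGM_basic {φ ψ : ℝ} (hφ : φ ∈ Ioo 0 Real.pi) (hψ : ψ ∈ Ioo 0 Real.pi)
    (hne : φ ≠ ψ) {U v : ℝ} (hU : U = Real.sin ψ / Real.sin φ)
    (hv : v = Real.sin (φ - ψ) / Real.sin φ) :
    0 < U ∧ v ≠ 0 ∧ U * Real.sin φ = Real.sin ψ ∧ v + U * Real.cos φ = Real.cos ψ ∧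
      (1 - U ^ 2 - v ^ 2) / (2 * U * v) = Real.cos φ ∧ Sg U v = Real.sin φ ^ 2 := by
  have hs : 0 < Real.sin φ := Real.sin_pos_of_pos_of_lt_pi hφ.1 hφ.2
  have hs2 : 0 < Real.sin ψ := Real.sin_pos_of_pos_of_lt_pi hψ.1 hψ.2
  have hd := VGM_sin_sub_ne hφ hψ hne
  have hU0 : 0 < U := by rw [hU]; exact div_pos hs2 hs
  have hv0 : v ≠ 0 := by rw [hv]; exact div_ne_zero hd hs.ne'
  have h1 : U * Real.sin φ = Real.sin ψ := by
    rw [hU]
    field_simp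
  have h2 : v + U * Real.cos φ = Real.cos ψ := by
    rw [hU, hv, Real.sin_sub]
    field_simp
    ring
  have h3 : v ^ 2 + U ^ 2 + 2 * v * U * Real.cos φ = 1 := by
    have e1 := Real.sin_sq_add_cos_sq ψ
    have e2 := Real.sin_sq_add_cos_sq φ
    rw [← h1, ← h2] at e1
    have e3 : Real.sin φ ^ 2 = 1 - Real.cos φ ^ 2 := by linarith
    have e4 : (U * Real.sin φ) ^ 2 = U ^ 2 * (1 - Real.cos φ ^ 2) := by
      rw [mul_pow, e3]
    rw [e4] at e1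
    nlinarith [e1]
  have h4 : (1 - U ^ 2 - v ^ 2) / (2 * U * v) = Real.cos φ := by
    rw [div_eq_iff (mul_ne_zero (mul_ne_zero two_ne_zero hU0.ne') hv0)]
    linarith
  refine ⟨hU0, hv0, h1, h2, h4, ?_⟩
  unfold Sg
  rw [h4]
  have e2 := Real.sin_sq_add_cos_sq φ
  linarith

theorem VGM_arccos {c : ℝ} (hc : 0 < 1 - c ^ 2) :
    Real.arccos c ∈ Ioo 0 Real.pi ∧ Real.cos (Real.arccos c) = c ∧
      Real.sin (Real.arccos c) = √(1 - c ^ 2) ∧ 0 < Real.sin (Real.arccos c) := by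
  have h1 : -1 ≤ c := by nlinarith
  have h2 : c ≤ 1 := by nlinarith
  have hs : 0 < Real.sin (Real.arccos c) := by
    rw [Real.sin_arccos]
    exact Real.sqrt_pos.mpr hc
  have hn : 0 ≤ Real.arccos c := Real.arccos_nonneg c
  have hp : Real.arccos c ≤ Real.pi := Real.arccos_le_pi c
  refine ⟨⟨lt_of_le_of_ne hn ?_, lt_of_le_of_ne hp ?_⟩, Real.cos_arccos h1 h2,
    Real.sin_arccos c, hs⟩
  · intro h
    rw [← h, Real.sin_zero] at hs
    exact lt_irrefl _ hs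
  · intro h
    rw [h, Real.sin_pi] at hs
    exact lt_irrefl _ hs

theorem VGM : VGM_stmt := by
  refine ⟨?_, ?_, ?_⟩
  · rintro ⟨φ, ψ⟩ ⟨⟨hφ, hψ⟩, hne⟩ ⟨φ', ψ'⟩ ⟨⟨hφ', hψ'⟩, hne'⟩ heq
    simp only [Prod.mk.injEq] at heq
    simp only [mem_ofPred_eq] at hne hne'
    obtain ⟨hU, hv⟩ := heq
    obtain ⟨-, -, -, b1, c1, -⟩ := VGM_basic hφ hψ hne rfl rfl
    obtain ⟨-, -, -, b2, c2, -⟩ := VGM_basic hφ' hψ' hne' hU hv
    have hcos : Real.cos φ = Real.cos φ' := c1.symm.trans c2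
    have hcos2 : Real.cos ψ = Real.cos ψ' := by
      rw [← b1, ← b2, hcos]
    have e1 : φ = φ' := Real.injOn_cos ⟨hφ.1.le, hφ.2.le⟩ ⟨hφ'.1.le, hφ'.2.le⟩ hcos
    have e2 : ψ = ψ' := Real.injOn_cos ⟨hψ.1.le, hψ.2.le⟩ ⟨hψ'.1.le, hψ'.2.le⟩ hcos2
    rw [e1, e2]
  · apply Set.Subset.antisymm
    · rintro _ ⟨⟨φ, ψ⟩, ⟨⟨hφ, hψ⟩, hne⟩, rfl⟩
      simp only [mem_ofPred_eq] at hne
      obtain ⟨a1, a2, -, -, -, a6⟩ := VGM_basic hφ hψ hne rfl rfl
      have hs : 0 < Real.sin φ := Real.sin_pos_of_pos_of_lt_pi hφ.1 hφ.2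
      refine ⟨a1, a2, ?_⟩
      show 0 < Sg (Real.sin ψ / Real.sin φ) (Real.sin (φ - ψ) / Real.sin φ)
      rw [a6]
      positivity
    · rintro ⟨U, v⟩ ⟨hU, hv, hS⟩
      simp only at hU hv hS
      set c : ℝ := (1 - U ^ 2 - v ^ 2) / (2 * U * v) with hc
      have hc1 : 0 < 1 - c ^ 2 := hS
      have hden : (2 * U * v) ≠ 0 := mul_ne_zero (mul_ne_zero two_ne_zero hU.ne') hv
      have hc2 : c * (2 * U * v) = 1 - U ^ 2 - v ^ 2 := by
        rw [hc]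
        exact div_mul_cancel₀ _ hden
      obtain ⟨p1, p2, p3, p4⟩ := VGM_arccos hc1
      set φ : ℝ := Real.arccos c with hφ
      set x : ℝ := v + U * c with hx
      have hxe : 1 - x ^ 2 = U ^ 2 * (1 - c ^ 2) := by
        rw [hx]
        nlinarith [hc2]
      have hx1 : 0 < 1 - x ^ 2 := by
        rw [hxe]
        positivity
      obtain ⟨q1, q2, q3, q4⟩ := VGM_arccos hx1
      set ψ : ℝ := Real.arccos x with hψ
      have hsin : Real.sin ψ = U * Real.sin φ := by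
        rw [q3, p3, hxe, Real.sqrt_mul (by positivity), Real.sqrt_sq hU.le]
      have hdiff : Real.sin (φ - ψ) = v * Real.sin φ := by
        rw [Real.sin_sub, q2, hsin, p2, hx]
        ring
      have hne : φ ≠ ψ := by
        intro h
        rw [h, sub_self, Real.sin_zero] at hdiff
        exact (mul_ne_zero hv q4.ne') hdiff.symm
      refine ⟨(φ, ψ), ⟨⟨p1, q1⟩, hne⟩, ?_⟩
      simp only [Prod.mk.injEq]
      refine ⟨?_, ?_⟩
      · rw [hsin]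
        exact mul_div_cancel_right₀ _ p4.ne'
      · rw [hdiff]
        exact mul_div_cancel_right₀ _ p4.ne'
  · intro φ hφ ψ hψ hne
    obtain ⟨-, -, a3, -, -, a6⟩ := VGM_basic hφ hψ hne rfl rfl
    have hs : 0 < Real.sin φ := Real.sin_pos_of_pos_of_lt_pi hφ.1 hφ.2
    have h1 : √(Sg (Real.sin ψ / Real.sin φ) (Real.sin (φ - ψ) / Real.sin φ)) = Real.sin φ := by
      rw [a6, Real.sqrt_sq hs.le]
    refine ⟨h1, ?_⟩
    rw [h1]
    exact a3

end Pool.Agent.T5V
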